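import Pool.Agent.helper121_SNI.HilbertSummand

/-!
# Spaces with a Hilbertian `ℓ_∞`-summand have second numerical index less than one

If `H` is a real Hilbert space of dimension at least two and `W` is any nonzero real normed space,
then `n'(H ⊕_∞ W) ≤ 27/(7√21) ≈ 0.8417`. So no such space is a counterexample to the statement that
`n(X) = 0` and `n'(X) = 1` imply that `X` is a Hilbert space.

The operator is `(h, w) ↦ λ ((⟨e₁,h⟩/4 + 2 φ(w)) e₁ - (7/4) ⟨e₂,h⟩ e₂, 0)` with `e₁, e₂` orthonormal in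
`H` and `φ` a norming functional of a unit vector of `W`.
-/

set_option autoImplicit false

namespace Pool.Agent.Results.MP_b2bd43_an.HilbertMSummand

open Pool.Agent.H121.SNI

/-- `n'(H ⊕_∞ W) ≤ 27/(7√21) < 1` for a real Hilbert space `H` containing two orthogonal unit vectors
and a nonzero real normed space `W`. -/
theorem result {H W : Type*} [NormedAddCommGroup H] [InnerProductSpace ℝ H] [CompleteSpace H]
    [NormedAddCommGroup W] [NormedSpace ℝ W] [Nontrivial W]
    (e₁ e₂ : H) (h₁ : ‖e₁‖ = 1) (h₂ : ‖e₂‖ = 1) (h₁₂ : inner ℝ e₁ e₂ = (0 : ℝ)) :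
    secondIndex (H × W) ≤ 27 / (7 * Real.sqrt 21) ∧ secondIndex (H × W) < 1 :=
  ⟨secondIndex_hilbert_summand e₁ e₂ h₁ h₂ h₁₂,
    (secondIndex_hilbert_summand e₁ e₂ h₁ h₂ h₁₂).trans_lt value_lt_one⟩

end Pool.Agent.Results.MP_b2bd43_an.HilbertMSummand
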